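import Pool.Agent.Q79.AT.Final

/-!
In characteristic two there is a smooth projective threefold, not isomorphic to projective space,
with an ample line bundle `L` and a nonzero morphism `L ⟶ T_X`: the smooth quadric
`x0 x1 + x2 x3 + x4 ^ 2 = 0` with `L = O(1)`.
-/

open AlgebraicGeometry CategoryTheory

namespace Pool.Agent.Results.MP_63fcef_ag.CharTwoQuadric

open Pool.Agent.Q79.AT

theorem result (k : Type) [Field k] [IsAlgClosed k] [CharP k 2] :
    ∃ (X : Scheme.{0}) (sX : X ⟶ Spec (.of k)) (L : LineBundle X) (φ : TangentMap sX L),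
      IsIntegral X ∧ SmoothOfRelativeDimension 3 sX ∧ IsProjective sX ∧
      L.IsAmple ∧ φ.IsNonzero ∧ ¬ IsoProjectiveSpace 3 sX :=
  ⟨_, _, O1 (JQ k), tmap stable_JQ, isIntegral_VQ, smooth_VQ, isProjective_VQ, isAmple_O1 _,
    tmap_nonzero, not_iso⟩

end Pool.Agent.Results.MP_63fcef_ag.CharTwoQuadric
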